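import Pool.Agent.L0h1.SJ.StmA

set_option autoImplicit false

/-! # Project SJ, module BON: the truncated inversion formula -/

namespace Pool.Agent.L0h9.SJ

open Finset Pool.Agent.L0h1.SJ

section

variable {V : Type} [Fintype V] (M : V → V → ZMod 2)

/-- the solutions -/
noncomputable def So : Finset (V → ZMod 2) := by
  classical exact univ.filter fun x => IsSol M x

theorem mem_So {x : V → ZMod 2} : x ∈ So M ↔ IsSol M x := by
  unfold So
  simp

/-- the combinations of `η` and the constants -/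
def cb {k : ℕ} (η : Fin k → V → ZMod 2) (ce : (Fin k → ZMod 2) × ZMod 2) : V → ZMod 2 :=
  fun p => ∑ i, ce.1 i * η i p + ce.2

/-- the set of the combinations -/
noncomputable def Cb {k : ℕ} (η : Fin k → V → ZMod 2) : Finset (V → ZMod 2) := by
  classical exact univ.image (cb η)

theorem mem_Cb {k : ℕ} {η : Fin k → V → ZMod 2} {x : V → ZMod 2} :
    x ∈ Cb η ↔ ∃ ce, cb η ce = x := by
  unfold Cb
  simp

variable {M}

theorem isSol_zero : IsSol M 0 := fun q => by simp

theorem isSol_add {x y : V → ZMod 2} (hx : IsSol M x) (hy : IsSol M y) : IsSol M (x + y) := by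
  intro q
  have h := congrArg₂ (· + ·) (hx q) (hy q)
  simp only [add_zero] at h
  rw [← h, ← Finset.sum_add_distrib]
  refine Finset.sum_congr rfl fun p _ => ?_
  simp only [Pi.add_apply]
  ring

theorem isSol_mul {x : V → ZMod 2} (c : ZMod 2) (hx : IsSol M x) : IsSol M (fun p => c * x p) := by
  intro q
  have h := congrArg (fun t => c * t) (hx q)
  simp only [mul_zero] at h
  rw [← h, Finset.mul_sum]
  exact Finset.sum_congr rfl fun p _ => by ring

theorem isSol_const (e : ZMod 2) : IsSol M (fun _ => e) := by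
  intro q
  refine Finset.sum_eq_zero fun p _ => ?_
  rw [CharTwo.add_self_eq_zero, zero_mul]

theorem isSol_cb {k : ℕ} {η : Fin k → V → ZMod 2} (h : ∀ i, IsSol M (η i))
    (ce : (Fin k → ZMod 2) × ZMod 2) : IsSol M (cb η ce) := by
  have h1 : cb η ce = (∑ i, fun p => ce.1 i * η i p) + fun _ => ce.2 := by
    funext p
    simp [cb, Finset.sum_apply]
  rw [h1]
  refine isSol_add ?_ (isSol_const _)
  exact Finset.sum_induction _ (IsSol M) (fun _ _ => isSol_add) isSol_zero
    fun i _ => isSol_mul _ (h i)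

variable (M)

theorem Cb_sub {k : ℕ} {η : Fin k → V → ZMod 2} (h : ∀ i, IsSol M (η i)) : Cb η ⊆ So M := by
  intro x hx
  obtain ⟨ce, rfl⟩ := mem_Cb.1 hx
  exact (mem_So M).2 (isSol_cb h ce)

theorem zmod2 (a : ZMod 2) : a = 0 ∨ a = 1 := by
  revert a
  decide

theorem Cb_card [Nonempty V] {k : ℕ} {η : Fin k → V → ZMod 2} (h : Ind η) :
    (Cb η).card = 2 ^ (k + 1) := by
  classical
  have hinj : Function.Injective (cb η) := by
    rintro ⟨c, e⟩ ⟨c', e'⟩ h1
    have h2 : ∀ p, ∑ i, (c i + c' i) * η i p = e + e' := by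
      intro p
      have h3 := congrFun h1 p
      simp only [cb] at h3
      have h4 : ∑ i, (c i + c' i) * η i p = ∑ i, c i * η i p + ∑ i, c' i * η i p := by
        rw [← Finset.sum_add_distrib]
        exact Finset.sum_congr rfl fun i _ => by ring
      rw [h4]
      have h5 : ∑ i, c i * η i p + e + (∑ i, c' i * η i p + e') = 0 := by
        rw [h3]
        exact CharTwo.add_self_eq_zero _
      have h6 : (∑ i, c i * η i p + ∑ i, c' i * η i p) + (e + e') = 0 := by
        rw [← h5]
        ring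
      rw [← CharTwo.sub_eq_add, sub_eq_zero] at h6
      exact h6
    have h3 : c = c' := by
      by_contra hne
      obtain ⟨i, hi⟩ := Function.ne_iff.1 hne
      obtain ⟨p, hp⟩ := h (fun i => c i + c' i) ⟨i, fun h0 => hi (by
        rw [← CharTwo.sub_eq_add, sub_eq_zero] at h0
        exact h0)⟩ (e + e')
      exact hp (h2 p)
    subst h3
    obtain ⟨p⟩ := ‹Nonempty V›
    have h4 := h2 p
    simp only [CharTwo.add_self_eq_zero, zero_mul, Finset.sum_const_zero] at h4
    have h5 : e = e' := by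
      have h6 : e + e' = 0 := h4.symm
      rw [← CharTwo.sub_eq_add, sub_eq_zero] at h6
      exact h6
    rw [h5]
  unfold Cb
  rw [Finset.card_image_of_injective _ hinj, Finset.card_univ, Fintype.card_prod,
    Fintype.card_fun, ZMod.card, Fintype.card_fin, pow_succ]

theorem ind_cons [Nonempty V] {k : ℕ} (η : Fin k → V → ZMod 2) (x : V → ZMod 2) :
    Ind (Fin.cons x η : Fin (k + 1) → V → ZMod 2) ↔ Ind η ∧ x ∉ Cb η := by
  have key : ∀ (c : Fin (k + 1) → ZMod 2) (p : V),
      ∑ i, c i * (Fin.cons x η : Fin (k + 1) → V → ZMod 2) i p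
        = c 0 * x p + ∑ i : Fin k, c i.succ * η i p := by
    intro c p
    rw [Fin.sum_univ_succ]
    simp only [Fin.cons_zero, Fin.cons_succ]
  constructor
  · intro h
    refine ⟨fun c hc e => ?_, fun hx => ?_⟩
    · obtain ⟨i, hi⟩ := hc
      obtain ⟨p, hp⟩ := h (Fin.cons 0 c) ⟨i.succ, by simpa using hi⟩ e
      refine ⟨p, ?_⟩
      rw [key] at hp
      simpa using hp
    · obtain ⟨⟨c, e⟩, hc⟩ := mem_Cb.1 hx
      obtain ⟨p, hp⟩ := h (Fin.cons 1 c) ⟨0, by simp⟩ e
      rw [key] at hp
      apply hp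
      simp only [Fin.cons_zero, Fin.cons_succ, one_mul]
      rw [← hc]
      simp only [cb]
      rw [show ∑ i, c i * η i p + e + ∑ i, c i * η i p
        = (∑ i, c i * η i p + ∑ i, c i * η i p) + e by ring, CharTwo.add_self_eq_zero, zero_add]
  · rintro ⟨h, hx⟩ c hc e
    by_contra hcon
    push Not at hcon
    simp only [key] at hcon
    rcases zmod2 (c 0) with h0 | h0
    · obtain ⟨i, hi⟩ := hc
      have hi' : i ≠ 0 := by
        rintro rfl
        exact hi h0
      obtain ⟨j, rfl⟩ := Fin.exists_succ_eq.2 hi'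
      obtain ⟨p, hp⟩ := h (fun i => c i.succ) ⟨j, hi⟩ e
      apply hp
      have h1 := hcon p
      rw [h0, zero_mul, zero_add] at h1
      exact h1
    · apply hx
      refine mem_Cb.2 ⟨(fun i => c i.succ, e), ?_⟩
      funext p
      simp only [cb]
      have h1 := hcon p
      rw [h0, one_mul] at h1
      rw [← h1, show ∑ i : Fin k, c i.succ * η i p + (x p + ∑ i : Fin k, c i.succ * η i p)
        = x p + (∑ i : Fin k, c i.succ * η i p + ∑ i : Fin k, c i.succ * η i p) by ring,
        CharTwo.add_self_eq_zero, add_zero]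

/-- the tuples -/
noncomputable def Sk (k : ℕ) : Finset (Fin k → V → ZMod 2) := by
  classical exact univ.filter fun ξ => (∀ i, IsSol M (ξ i)) ∧ Ind ξ

theorem mem_Sk {k : ℕ} {ξ : Fin k → V → ZMod 2} :
    ξ ∈ Sk M k ↔ (∀ i, IsSol M (ξ i)) ∧ Ind ξ := by
  unfold Sk
  simp

theorem cnt_eq (k : ℕ) : cnt k M = (Sk M k).card := by
  unfold cnt Sk
  congr

theorem le_of_ne [Nonempty V] (k : ℕ) (h : cnt k M ≠ 0) : 2 ^ (k + 1) ≤ (So M).card := by
  rw [cnt_eq] at h
  obtain ⟨η, hη⟩ := Finset.card_pos.1 (Nat.pos_of_ne_zero h)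
  obtain ⟨h1, h2⟩ := (mem_Sk M).1 hη
  rw [← Cb_card h2]
  exact Finset.card_le_card (Cb_sub M h1)

theorem cnt_succ [Nonempty V] (k : ℕ) :
    (cnt (k + 1) M : ℝ) = cnt k M * (((So M).card : ℝ) - 2 ^ (k + 1)) := by
  classical
  rw [cnt_eq, cnt_eq]
  have h1 : ∀ ξ ∈ Sk M (k + 1), Fin.tail ξ ∈ Sk M k := by
    intro ξ hξ
    obtain ⟨h2, h3⟩ := (mem_Sk M).1 hξ
    rw [← Fin.cons_self_tail ξ, ind_cons] at h3
    exact (mem_Sk M).2 ⟨fun i => h2 i.succ, h3.1⟩
  rw [Finset.card_eq_sum_card_fiberwise h1, Nat.cast_sum]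
  have h2 : ∀ η ∈ Sk M k, (((Sk M (k + 1)).filter fun ξ => Fin.tail ξ = η).card : ℝ)
      = ((So M).card : ℝ) - 2 ^ (k + 1) := by
    intro η hη
    obtain ⟨h3, h4⟩ := (mem_Sk M).1 hη
    have h5 : (Sk M (k + 1)).filter (fun ξ => Fin.tail ξ = η)
        = (So M \ Cb η).image fun x => (Fin.cons x η : Fin (k + 1) → V → ZMod 2) := by
      ext ξ
      rw [Finset.mem_filter, Finset.mem_image, mem_Sk]
      constructor
      · rintro ⟨⟨g1, g2⟩, g3⟩
        refine ⟨ξ 0, ?_, ?_⟩
        · rw [← Fin.cons_self_tail ξ, ind_cons, g3] at g2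
          exact Finset.mem_sdiff.2 ⟨(mem_So M).2 (g1 0), g2.2⟩
        · rw [← g3]
          exact Fin.cons_self_tail ξ
      · rintro ⟨x, hx, rfl⟩
        obtain ⟨g1, g2⟩ := Finset.mem_sdiff.1 hx
        refine ⟨⟨fun i => ?_, (ind_cons η x).2 ⟨h4, g2⟩⟩, Fin.tail_cons _ _⟩
        refine Fin.cases ?_ (fun i => ?_) i
        · rw [Fin.cons_zero]
          exact (mem_So M).1 g1
        · rw [Fin.cons_succ]
          exact h3 i
    rw [h5, Finset.card_image_of_injective _ (fun x y h => by
      have := congrFun h 0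
      simpa using this), Finset.card_sdiff_of_subset (Cb_sub M h3), Cb_card h4, Nat.cast_sub]
    · push_cast
      rfl
    · rw [← Cb_card h4]
      exact Finset.card_le_card (Cb_sub M h3)
  rw [Finset.sum_congr rfl h2, Finset.sum_const, nsmul_eq_mul]

theorem cnt_zero [Nonempty V] : cnt 0 M = 1 := by
  rw [cnt_eq, Finset.card_eq_one]
  refine ⟨Fin.elim0, ?_⟩
  ext ξ
  rw [mem_Sk, Finset.mem_singleton]
  constructor
  · intro _
    funext i
    exact i.elim0
  · intro _
    exact ⟨fun i => i.elim0, fun c hc => by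
      obtain ⟨i, _⟩ := hc
      exact i.elim0⟩

/-- the good systems have two solutions -/
theorem gv_iff [Nonempty V] : Gv M ↔ (So M).card = 2 := by
  classical
  have h0 : ∀ e : ZMod 2, (fun _ => e) ∈ So M := fun e => (mem_So M).2 (isSol_const e)
  obtain ⟨p0⟩ := ‹Nonempty V›
  have h01 : (fun _ : V => (0 : ZMod 2)) ≠ fun _ => 1 := fun h => by
    have := congrFun h p0
    exact zero_ne_one this
  constructor
  · intro h
    rw [Finset.card_eq_two]
    refine ⟨fun _ => 0, fun _ => 1, h01, ?_⟩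
    ext x
    rw [mem_So, Finset.mem_insert, Finset.mem_singleton]
    constructor
    · intro hx
      have h1 := h x hx
      rcases zmod2 (x p0) with h2 | h2
      · left
        funext p
        rw [h1 p p0, h2]
      · right
        funext p
        rw [h1 p p0, h2]
    · rintro (rfl | rfl)
      · exact isSol_const 0
      · exact isSol_const 1
  · intro h x hx p q
    have h1 : So M = {(fun _ => 0), fun _ => 1} := by
      symm
      refine Finset.eq_of_subset_of_card_le ?_ ?_
      · intro y hy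
        rw [Finset.mem_insert, Finset.mem_singleton] at hy
        rcases hy with rfl | rfl
        · exact h0 0
        · exact h0 1
      · rw [h, Finset.card_pair h01]
    have h2 : x ∈ So M := (mem_So M).2 hx
    rw [h1, Finset.mem_insert, Finset.mem_singleton] at h2
    rcases h2 with rfl | rfl <;> rfl

end

theorem fac_pos' (i : ℕ) : (0 : ℝ) < (2 : ℝ) ^ (i + 1) - 1 := by
  have h : (1 : ℝ) < 2 ^ (i + 1) := one_lt_pow₀ (by norm_num) (by omega)
  linarith

theorem ak_succ (k : ℕ) : ak (k + 1) * (2 * ((2 : ℝ) ^ (k + 1) - 1)) = -ak k := by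
  unfold ak
  rw [Finset.prod_range_succ]
  have h1 := (fac_pos' k).ne'
  have h2 : ∏ i ∈ range k, ((2 : ℝ) ^ (i + 1) - 1) ≠ 0 :=
    Finset.prod_ne_zero_iff.2 fun i _ => (fac_pos' i).ne'
  field_simp
  ring

theorem t_BON : S_BON := by
  intro V _ _ M T
  set s : ℝ := ((So M).card : ℝ) with hs
  set b : ℕ → ℝ := fun k => ak k * cnt k M with hb
  have hb0 : b 0 = 1 := by
    simp only [hb, cnt_zero]
    simp [ak]
  have hbs : ∀ k, b (k + 1) * ((2 : ℝ) ^ (k + 1) - 1) = -b k * (s / 2 - 2 ^ k) := by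
    intro k
    simp only [hb]
    rw [cnt_succ]
    have h1 := ak_succ k
    have h2 : (2 : ℝ) ^ (k + 1) = 2 * 2 ^ k := by rw [pow_succ]; ring
    rw [h2] at h1 ⊢
    linear_combination (cnt k M : ℝ) * (s / 2 - 2 ^ k) * h1
  have hid : ∀ T, ((2 : ℝ) ^ (T + 1) - 1) * b (T + 1) = -(s / 2 - 1) * ∑ k ∈ range (T + 1), b k := by
    intro T
    induction T with
    | zero =>
      rw [Finset.sum_range_one, mul_comm, hbs, hb0]
      norm_num
    | succ T ih =>
      rw [Finset.sum_range_succ, mul_add, ← ih, mul_comm, hbs]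
      ring
  have h1 := hid T
  have h2 := fac_pos' T
  have hab : |ak (T + 1)| * cnt (T + 1) M = |b (T + 1)| := by
    simp only [hb]
    rw [abs_mul, Nat.abs_cast]
  rw [hab]
  change |_ - ∑ k ∈ range (T + 1), b k| ≤ _
  set S := ∑ k ∈ range (T + 1), b k with hS
  by_cases hc : cnt (T + 1) M = 0
  · have h3 : b (T + 1) = 0 := by
      simp only [hb]
      rw [hc, Nat.cast_zero, mul_zero]
    rw [h3, abs_zero]
    rw [h3, mul_zero] at h1
    by_cases hg : Gv M
    · rw [if_pos hg]
      have h4 : s = 2 := by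
        rw [hs, (gv_iff M).1 hg]
        norm_num
      have h5 : ∀ k, b (k + 1) = 0 := by
        intro k
        have h6 := hid k
        rw [h4] at h6
        norm_num at h6
        rcases h6 with h6 | h6
        · exact absurd h6 (fac_pos' k).ne'
        · exact h6
      have h7 : S = 1 := by
        rw [hS, Finset.sum_range_succ', hb0, Finset.sum_eq_zero fun k _ => h5 k, zero_add]
      rw [h7, sub_self, abs_zero]
    · rw [if_neg hg]
      have h4 : s / 2 - 1 ≠ 0 := by
        intro h5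
        apply hg
        rw [gv_iff]
        have h6 : s = 2 := by linarith
        rw [hs] at h6
        exact_mod_cast h6
      have h5 : S = 0 := by
        rcases mul_eq_zero.1 h1.symm with h6 | h6
        · exact absurd (neg_eq_zero.1 h6) h4
        · exact h6
      rw [h5, sub_zero, abs_zero]
  · have h3 : (2 : ℝ) ^ (T + 1 + 1) ≤ s := by
      rw [hs]
      exact_mod_cast le_of_ne M (T + 1) hc
    have h4 : (2 : ℝ) ^ (T + 1) ≤ s / 2 := by
      rw [pow_succ] at h3
      linarith
    have hg : ¬ Gv M := by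
      intro hg
      have h5 : s = 2 := by
        rw [hs, (gv_iff M).1 hg]
        norm_num
      rw [h5] at h4
      linarith
    rw [if_neg hg, zero_sub, abs_neg]
    have h5 : ((2 : ℝ) ^ (T + 1) - 1) * |b (T + 1)| = (s / 2 - 1) * |S| := by
      have h6 := congrArg abs h1
      rw [abs_mul ((2 : ℝ) ^ (T + 1) - 1) (b (T + 1)), abs_mul (-(s / 2 - 1)) S, abs_neg,
        abs_of_pos h2, abs_of_nonneg (by linarith : (0 : ℝ) ≤ s / 2 - 1)] at h6
      exact h6
    have h6 : ((2 : ℝ) ^ (T + 1) - 1) * |S| ≤ ((2 : ℝ) ^ (T + 1) - 1) * |b (T + 1)| := by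
      rw [h5]
      gcongr
    exact le_of_mul_le_mul_left h6 h2

end Pool.Agent.L0h9.SJ
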