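import Pool.Agent.L0h1.SJ.StmA

set_option autoImplicit false

/-! # Project SJ, module EUL: Euler's identity -/

namespace Pool.Agent.L0h9.SJ

open Finset Pool.Agent.L0h1.SJ Filter Topology

/-- the absolute values of the coefficients -/
noncomputable def aa (k : ℕ) : ℝ := (∏ i ∈ range k, ((2 : ℝ) ^ (i + 1) - 1))⁻¹

theorem fac_pos (i : ℕ) : (0 : ℝ) < (2 : ℝ) ^ (i + 1) - 1 := by
  have h : (1 : ℝ) < 2 ^ (i + 1) := one_lt_pow₀ (by norm_num) (by omega)
  linarith

theorem aa_succ (k : ℕ) : aa (k + 1) * ((2 : ℝ) ^ (k + 1) - 1) = aa k := by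
  unfold aa
  rw [Finset.prod_range_succ, mul_inv, mul_assoc, inv_mul_cancel₀ (fac_pos k).ne', mul_one]

theorem aa_pos (k : ℕ) : 0 < aa k := inv_pos.2 (Finset.prod_pos fun i _ => fac_pos i)

theorem aa_le (k : ℕ) : aa k ≤ 2 * (1 / 2) ^ k := by
  induction k with
  | zero => simp [aa]
  | succ k ih =>
    rcases Nat.eq_zero_or_pos k with rfl | hk
    · simp [aa]
      norm_num
    · have h1 := aa_succ k
      have h2 : (4 : ℝ) ≤ 2 ^ (k + 1) := by
        calc (4 : ℝ) = 2 ^ 2 := by norm_num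
          _ ≤ 2 ^ (k + 1) := pow_le_pow_right₀ (by norm_num) (by omega)
      have h3 := aa_pos (k + 1)
      have h4 : aa (k + 1) * 2 ≤ aa k := by
        rw [← h1]
        gcongr
        linarith
      rw [pow_succ]
      linarith

/-- the terms of Euler's series -/
noncomputable def tm (x : ℝ) (k : ℕ) : ℝ := (-1) ^ k * aa k * x ^ k

theorem tm_le {x : ℝ} (hx0 : 0 ≤ x) (hx1 : x ≤ 1) (k : ℕ) : ‖tm x k‖ ≤ 2 * (1 / 2) ^ k := by
  unfold tm
  rw [Real.norm_eq_abs, abs_mul, abs_mul, abs_pow, abs_neg, abs_one, one_pow, one_mul,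
    abs_of_pos (aa_pos k), abs_of_nonneg (pow_nonneg hx0 k)]
  calc aa k * x ^ k ≤ aa k * 1 := by
        have := aa_pos k
        have h1 : x ^ k ≤ 1 := pow_le_one₀ hx0 hx1
        gcongr
    _ ≤ _ := by rw [mul_one]; exact aa_le k

theorem sum_geo : Summable fun k : ℕ => 2 * (1 / 2 : ℝ) ^ k :=
  (summable_geometric_of_lt_one (by norm_num) (by norm_num)).mul_left 2

theorem tm_summable {x : ℝ} (hx0 : 0 ≤ x) (hx1 : x ≤ 1) : Summable (tm x) :=
  Summable.of_norm_bounded sum_geo (tm_le hx0 hx1)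

/-- Euler's series -/
noncomputable def FF (x : ℝ) : ℝ := ∑' k, tm x k

theorem FF_half {x : ℝ} (hx0 : 0 ≤ x) (hx1 : x ≤ 1) : FF x = (1 - x / 2) * FF (x / 2) := by
  have h1 := tm_summable hx0 hx1
  have h2 := tm_summable (x := x / 2) (by linarith) (by linarith)
  have h3 : FF x - FF (x / 2) = ∑' k, (tm x k - tm (x / 2) k) := (h1.tsum_sub h2).symm
  have h4 : ∀ k, tm x (k + 1) - tm (x / 2) (k + 1) = -(x / 2) * tm (x / 2) k := by
    intro k
    unfold tm
    rw [← aa_succ k]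
    have h5 : x ^ (k + 1) = 2 ^ (k + 1) * (x / 2) ^ (k + 1) := by
      rw [← mul_pow]
      congr 1
      ring
    rw [h5, pow_succ (-1 : ℝ), pow_succ (x / 2)]
    ring
  have h6 : tm x 0 - tm (x / 2) 0 = 0 := by simp [tm]
  rw [(h1.sub h2).tsum_eq_zero_add, h6, zero_add] at h3
  simp only [h4] at h3
  rw [tsum_mul_left] at h3
  have h7 : ∑' k, tm (x / 2) k = FF (x / 2) := rfl
  rw [h7] at h3
  linarith

theorem FF_prod (n : ℕ) : FF 1 = (∏ i ∈ range n, (1 - (1 / 2 : ℝ) ^ (i + 1))) * FF ((1 / 2) ^ n) := by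
  induction n with
  | zero => simp
  | succ n ih =>
    have h1 : (0 : ℝ) ≤ (1 / 2) ^ n := by positivity
    have h2 : ((1 : ℝ) / 2) ^ n ≤ 1 := pow_le_one₀ (by norm_num) (by norm_num)
    rw [ih, FF_half h1 h2, Finset.prod_range_succ, mul_assoc]
    have h3 : ((1 : ℝ) / 2) ^ n / 2 = (1 / 2) ^ (n + 1) := by rw [pow_succ]; ring
    rw [h3]

theorem FF_lim : Tendsto (fun n : ℕ => FF ((1 / 2) ^ n)) atTop (𝓝 1) := by
  have h0 : Tendsto (fun n : ℕ => ((1 : ℝ) / 2) ^ n) atTop (𝓝 0) :=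
    tendsto_pow_atTop_nhds_zero_of_lt_one (by norm_num) (by norm_num)
  have h1 : Tendsto (fun n : ℕ => ∑' k, tm ((1 / 2) ^ n) k) atTop (𝓝 (∑' k, tm 0 k)) := by
    refine tendsto_tsum_of_dominated_convergence sum_geo (fun k => ?_)
      (Eventually.of_forall fun n k => tm_le (by positivity)
        (pow_le_one₀ (by norm_num) (by norm_num)) k)
    unfold tm
    exact (h0.pow k).const_mul _
  have h2 : ∑' k, tm 0 k = 1 := by
    rw [tsum_eq_single 0]
    · simp [tm, aa]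
    · intro k hk
      unfold tm
      rw [zero_pow hk, mul_zero]
  rw [h2] at h1
  exact h1

theorem eta_lim : Tendsto (fun n : ℕ => ∏ i ∈ range n, (1 - (1 / 2 : ℝ) ^ (i + 1))) atTop
    (𝓝 eta) := by
  have h1 : Summable fun i : ℕ => -(1 / 2 : ℝ) ^ (i + 1) := by
    have h2 : Summable fun i : ℕ => (1 / 2 : ℝ) ^ i :=
      summable_geometric_of_lt_one (by norm_num) (by norm_num)
    exact ((summable_nat_add_iff 1).2 h2).neg
  have h2 : Multipliable fun i : ℕ => (1 + -(1 / 2 : ℝ) ^ (i + 1)) :=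
    Real.multipliable_one_add_of_summable h1
  have h3 : (fun i : ℕ => (1 + -(1 / 2 : ℝ) ^ (i + 1))) = fun i : ℕ => 1 - (1 / 2 : ℝ) ^ (i + 1) := by
    funext i
    ring
  rw [h3] at h2
  exact h2.hasProd.tendsto_prod_nat

theorem t_EUL : S_EUL := by
  have h1 : FF 1 = eta := by
    have h2 : Tendsto (fun n : ℕ => (∏ i ∈ range n, (1 - (1 / 2 : ℝ) ^ (i + 1))) *
        FF ((1 / 2) ^ n)) atTop (𝓝 (eta * 1)) := eta_lim.mul FF_lim
    rw [mul_one] at h2
    have h3 : Tendsto (fun _ : ℕ => FF 1) atTop (𝓝 eta) := h2.congr fun n => (FF_prod n).symm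
    exact tendsto_nhds_unique tendsto_const_nhds h3
  unfold S_EUL
  rw [← h1]
  have h2 := (tm_summable (x := 1) (by norm_num) le_rfl).hasSum.tendsto_sum_nat
  have h3 := (tendsto_add_atTop_iff_nat 1).2 h2
  refine h3.congr fun T => Finset.sum_congr rfl fun k _ => ?_
  unfold tm aa ak
  rw [one_pow, mul_one, div_mul_eq_mul_div, mul_comm ((2 : ℝ) ^ k), mul_div_mul_right _ _ (by positivity),
    div_eq_mul_inv]

end Pool.Agent.L0h9.SJ
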