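import Pool.Agent.L0h1.SJ.StmA

set_option autoImplicit false

/-! # Project SJ, module PAR: the relations if all labels occur -/

namespace Pool.Agent.L0h9.SJ

open Finset Pool.Agent.L0h1.SJ

theorem alt_zero {I : Type} [Fintype I] (A : I → I → ZMod 2) (hs : ∀ i j, A i j = A j i)
    (hd : ∀ i, A i i = 0) (v : I → ZMod 2) : ∑ i, (∑ j, A i j * v j) * v i = 0 := by
  have h1 : ∑ i, (∑ j, A i j * v j) * v i = ∑ x : I × I, A x.1 x.2 * v x.2 * v x.1 := by
    rw [Fintype.sum_prod_type]
    exact Finset.sum_congr rfl fun i _ => by rw [Finset.sum_mul]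
  rw [h1]
  refine Finset.sum_involution (fun x _ => (x.2, x.1)) ?_ ?_ ?_ ?_
  · rintro ⟨i, j⟩ _
    simp only
    rw [hs j i, show A i j * v j * v i + A i j * v i * v j
      = A i j * v j * v i + A i j * v j * v i by ring]
    exact CharTwo.add_self_eq_zero _
  · rintro ⟨i, j⟩ _ h h2
    simp only [Prod.mk.injEq] at h2
    apply h
    simp only
    rw [h2.1, hd, zero_mul, zero_mul]
  · rintro ⟨i, j⟩ _
    exact Finset.mem_univ _
  · rintro ⟨i, j⟩ _
    rfl

theorem sum_single' {I : Type} [Fintype I] [DecidableEq I] (g : I → ZMod 2) (j : I) :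
    ∑ i, g i * (Pi.single j 1 : I → ZMod 2) i = g j := by
  rw [Finset.sum_eq_single j]
  · rw [Pi.single_eq_same, mul_one]
  · intro b _ hb
    rw [Pi.single_eq_of_ne hb, mul_zero]
  · intro h
    exact absurd (Finset.mem_univ j) h

theorem eq_of_add {a b : ZMod 2} (h : a + b = 0) : a = b := by
  rw [← CharTwo.sub_eq_add] at h
  exact sub_eq_zero.1 h

theorem t_PAR : S_PAR := by
  classical
  intro J I _ _ X hX f
  rw [← Finset.sum_product']
  symm
  refine Finset.sum_nbij (fun Ac : (I → I → ZMod 2) × (I → ZMod 2) =>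
    fun q i => ∑ j, Ac.1 i j * X q j + Ac.2 i) ?_ ?_ ?_ (fun _ _ => rfl)
  · rintro ⟨A, c⟩ h
    obtain ⟨hA, -⟩ := Finset.mem_product.1 h
    obtain ⟨-, hs, hd⟩ := Finset.mem_filter.1 hA
    refine Finset.mem_filter.2 ⟨Finset.mem_univ _, fun p q => ?_⟩
    rw [← alt_zero A hs hd fun i => X p i + X q i]
    refine Finset.sum_congr rfl fun i _ => ?_
    congr 1
    simp only
    rw [show ∑ j, A i j * X p j + c i + (∑ j, A i j * X q j + c i)
      = (∑ j, A i j * X p j + ∑ j, A i j * X q j) + (c i + c i) by ring,
      CharTwo.add_self_eq_zero, add_zero, ← Finset.sum_add_distrib]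
    exact Finset.sum_congr rfl fun j _ => by ring
  · rintro ⟨A, c⟩ _ ⟨A', c'⟩ _ h
    simp only at h
    have h1 : ∀ q i, ∑ j, A i j * X q j + c i = ∑ j, A' i j * X q j + c' i := fun q i =>
      congrFun (congrFun h q) i
    obtain ⟨q0, hq0⟩ := hX 0
    have hc : c = c' := by
      funext i
      have h2 := h1 q0 i
      simpa [hq0] using h2
    have hA : A = A' := by
      funext i j
      obtain ⟨q, hq⟩ := hX (Pi.single j 1)
      have h2 := h1 q i
      rw [hq, sum_single' (A i) j, sum_single' (A' i) j, hc] at h2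
      exact add_right_cancel h2
    rw [hc, hA]
  · intro y hy
    obtain ⟨-, hy⟩ := Finset.mem_filter.1 (Finset.mem_coe.1 hy)
    choose s hs using hX
    -- `y` depends only on the labels
    have hdep : ∀ p p', X p = X p' → y p = y p' := by
      intro p p' h
      funext i
      have h1 := hy p (s (X p + Pi.single i 1))
      have h2 := hy p' (s (X p + Pi.single i 1))
      rw [hs] at h1 h2
      rw [← h] at h2
      have h3 : ∀ j, X p j + (X p + Pi.single i 1 : I → ZMod 2) j
          = (Pi.single i 1 : I → ZMod 2) j := by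
        intro j
        rw [Pi.add_apply, ← add_assoc, CharTwo.add_self_eq_zero, zero_add]
      simp only [h3] at h1 h2
      have h4 : y p i + y (s (X p + Pi.single i 1)) i = 0 :=
        (sum_single' (fun j => y p j + y (s (X p + Pi.single i 1)) j) i).symm.trans h1
      have h5 : y p' i + y (s (X p + Pi.single i 1)) i = 0 :=
        (sum_single' (fun j => y p' j + y (s (X p + Pi.single i 1)) j) i).symm.trans h2
      rw [eq_of_add h4, eq_of_add h5]
    set z : (I → ZMod 2) → I → ZMod 2 := fun a => y (s a) with hz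
    have hyz : ∀ q, y q = z (X q) := fun q => hdep _ _ (hs _).symm
    have hzz : ∀ a b, ∑ i, (z a i + z b i) * (a i + b i) = 0 := by
      intro a b
      have h1 := hy (s a) (s b)
      rw [hs, hs] at h1
      exact h1
    set z' : (I → ZMod 2) → I → ZMod 2 := fun a i => z a i + z 0 i with hz'
    have h0 : ∀ a, ∑ i, z' a i * a i = 0 := by
      intro a
      have h1 := hzz a 0
      simpa using h1
    have hsym : ∀ a b, ∑ i, z' a i * b i = ∑ i, z' b i * a i := by
      intro a b
      have h1 := hzz a b
      have h2 : ∑ i, (z a i + z b i) * (a i + b i)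
          = ∑ i, z' a i * a i + ∑ i, z' b i * b i + (∑ i, z' a i * b i + ∑ i, z' b i * a i) := by
        rw [← Finset.sum_add_distrib, ← Finset.sum_add_distrib, ← Finset.sum_add_distrib]
        refine Finset.sum_congr rfl fun i _ => ?_
        simp only [hz']
        have h3 : (z 0 i + z 0 i) = 0 := CharTwo.add_self_eq_zero _
        linear_combination (-(a i) - b i) * h3
      rw [h2, h0, h0, zero_add, zero_add] at h1
      exact eq_of_add h1
    have hlin : ∀ a j, z' a j = ∑ i, z' (Pi.single j 1) i * a i := by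
      intro a j
      rw [← hsym a (Pi.single j 1), sum_single' (z' a) j]
    have hA : ∀ i j, z' (Pi.single j 1) i = z' (Pi.single i 1) j := by
      intro i j
      rw [hlin (Pi.single j 1) i, sum_single' (z' (Pi.single i 1)) j]
    refine ⟨(fun i j => z' (Pi.single j 1) i, z 0), ?_, ?_⟩
    · refine Finset.mem_coe.2 (Finset.mem_product.2 ⟨Finset.mem_filter.2 ⟨Finset.mem_univ _, hA,
        fun i => ?_⟩, Finset.mem_univ _⟩)
      have h1 := h0 (Pi.single i 1)
      rw [sum_single' (z' (Pi.single i 1)) i] at h1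
      exact h1
    · funext q i
      simp only
      rw [hyz q]
      have h1 : ∑ j, z' (Pi.single j 1) i * X q j = z' (X q) i := by
        rw [hlin (X q) i]
        exact Finset.sum_congr rfl fun j _ => by rw [hA]
      rw [h1]
      simp only [hz']
      rw [add_assoc, CharTwo.add_self_eq_zero, add_zero]

end Pool.Agent.L0h9.SJ
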